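import Pool.Agent.Helper97_BD.Hard

/-!
# Computing the broadcast dimension of a graph is NP-hard

Reduction from 3SAT.  The graph produced has a universal vertex, so its distances are at most two
and a broadcast value above one is never useful.  Pairs of adjacent twins force a set of code
vertices into the support of a resolving broadcast; the remaining pairs of vertices force one
literal for each variable and a true literal for each clause.
-/

namespace Pool.Agent.Results.MP_307b22_lc.BroadcastDimNPHard

open Pool.Agent.NPC Pool.Agent.Helper97_BD

/-- **Deciding whether the broadcast dimension of a graph, given by its adjacency matrix, is at most
a given number is NP-hard** under polynomial-time many-one reductions. -/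
theorem result : NPHardP BroadcastDim := npHard

end Pool.Agent.Results.MP_307b22_lc.BroadcastDimNPHard
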